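import Mathlib

set_option autoImplicit false

namespace Pool.Agent.Results.MP_59918e_co.EquistableNotWeaklyCIS

/-- `S` is an inclusion-maximal stable set of `G`. -/
def IsMaxStable {V : Type} (G : SimpleGraph V) (S : Finset V) : Prop :=
  Maximal (fun T : Finset V => ∀ u ∈ T, ∀ v ∈ T, ¬ G.Adj u v) S

/-- `C` is an inclusion-maximal clique of `G`. -/
def IsMaxClique {V : Type} (G : SimpleGraph V) (C : Finset V) : Prop :=
  Maximal (fun T : Finset V => ∀ u ∈ T, ∀ v ∈ T, u ≠ v → G.Adj u v) C

/-- `G` is equistable: some nonnegative real weights give total weight one exactly to the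
maximal stable sets. -/
def Equistable {V : Type} (G : SimpleGraph V) : Prop :=
  ∃ φ : V → ℝ, (∀ v, 0 ≤ φ v) ∧ ∀ S : Finset V, IsMaxStable G S ↔ ∑ v ∈ S, φ v = 1

/-- `G` is weakly CIS: there are an edge covering family `C` of maximal cliques and a non-edge
covering family `S` of maximal stable sets which are cross-intersecting. -/
def WeaklyCIS {V : Type} (G : SimpleGraph V) : Prop :=
  ∃ 𝒞 𝒮 : Set (Finset V),
    (∀ C ∈ 𝒞, IsMaxClique G C) ∧ (∀ S ∈ 𝒮, IsMaxStable G S) ∧
    (∀ u v, G.Adj u v → ∃ C ∈ 𝒞, u ∈ C ∧ v ∈ C) ∧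
    (∀ u v, u ≠ v → ¬ G.Adj u v → ∃ S ∈ 𝒮, u ∈ S ∧ v ∈ S) ∧
    (∀ C ∈ 𝒞, ∀ S ∈ 𝒮, ∃ x, x ∈ C ∧ x ∈ S)

/-- The edges of the triangle-free graph on 9 vertices. -/
def ed : Fin 14 → Fin 9 × Fin 9 :=
  ![(0, 3), (0, 5), (0, 6), (1, 2), (1, 6), (1, 8), (2, 3), (2, 5), (3, 7), (4, 5), (4, 6), (4, 7),
    (5, 8), (7, 8)]

/-- incidence -/
def inc (v : Fin 9) (e : Fin 14) : Bool := decide ((ed e).1 = v) || decide ((ed e).2 = v)

/-- the two edges share an end -/
def meet (e f : Fin 14) : Bool :=
  inc (ed e).1 f || inc (ed e).2 f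

/-- the complement of the line graph -/
def G : SimpleGraph (Fin 14) where
  Adj e f := meet e f = false
  symm := ⟨by decide⟩
  loopless := ⟨by decide⟩

lemma adj_iff (e f : Fin 14) : G.Adj e f ↔ meet e f = false := Iff.rfl

/-- star of a vertex -/
def star (v : Fin 9) : Finset (Fin 14) := Finset.univ.filter (fun e => inc v e = true)

lemma mem_star {v : Fin 9} {e : Fin 14} : e ∈ star v ↔ inc v e = true := by
  simp [star]

lemma share : ∀ e f : Fin 14, meet e f = true → ∃ v, inc v e = true ∧ inc v f = true := by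
  decide

lemma meet_of_inc : ∀ v : Fin 9, ∀ e f : Fin 14, inc v e = true → inc v f = true →
    meet e f = true := by
  decide

lemma tri : ∀ v : Fin 9, ∀ e f g : Fin 14, e ≠ f → inc v e = true → inc v f = true →
    meet e g = true → meet f g = true → inc v g = true := by
  decide

lemma star_stable (v : Fin 9) : ∀ a ∈ star v, ∀ b ∈ star v, ¬ G.Adj a b := by
  intro a ha b hb h
  rw [adj_iff, meet_of_inc v a b (mem_star.1 ha) (mem_star.1 hb)] at h
  exact absurd h (by decide)

lemma stable_sub_star {S : Finset (Fin 14)} (hS : ∀ u ∈ S, ∀ v ∈ S, ¬ G.Adj u v) {e f : Fin 14}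
    (he : e ∈ S) (hf : f ∈ S) (hne : e ≠ f) {v : Fin 9} (h1 : inc v e = true)
    (h2 : inc v f = true) : S ⊆ star v := by
  intro g hg
  rw [mem_star]
  have k1 := hS e he g hg
  have k2 := hS f hf g hg
  rw [adj_iff, Bool.not_eq_false] at k1 k2
  exact tri v e f g hne h1 h2 k1 k2

lemma eq_star {S : Finset (Fin 14)} (hS : IsMaxStable G S) {e f : Fin 14}
    (he : e ∈ S) (hf : f ∈ S) (hne : e ≠ f) {v : Fin 9} (h1 : inc v e = true)
    (h2 : inc v f = true) : S = star v := by
  have hsub := stable_sub_star hS.1 he hf hne h1 h2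
  exact Finset.Subset.antisymm hsub (hS.2 (star_stable v) hsub)

lemma two_in_star : ∀ v : Fin 9, ∃ e f : Fin 14, e ≠ f ∧ inc v e = true ∧ inc v f = true := by
  decide

lemma other : ∀ e : Fin 14, ∃ f : Fin 14, f ≠ e ∧ meet e f = true := by
  decide

lemma star_max (v : Fin 9) : IsMaxStable G (star v) := by
  refine ⟨star_stable v, ?_⟩
  intro T hT hsub
  obtain ⟨e, f, hne, h1, h2⟩ := two_in_star v
  exact stable_sub_star hT (hsub (mem_star.2 h1)) (hsub (mem_star.2 h2)) hne h1 h2

lemma max_is_star {S : Finset (Fin 14)} (hS : IsMaxStable G S) : ∃ v, S = star v := by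
  -- S is nonempty
  have hne : S.Nonempty := by
    by_contra h
    rw [Finset.not_nonempty_iff_eq_empty] at h
    subst h
    have := hS.2 (star_stable 0) (Finset.empty_subset _)
    have h0 : (0 : Fin 14) ∈ star 0 := by decide
    exact absurd (this h0) (by simp)
  obtain ⟨e, he⟩ := hne
  by_cases h2 : ∃ f ∈ S, f ≠ e
  · obtain ⟨f, hf, hfe⟩ := h2
    have := hS.1 e he f hf
    rw [adj_iff, Bool.not_eq_false] at this
    obtain ⟨v, h1, h2⟩ := share e f this
    exact ⟨v, eq_star hS he hf (Ne.symm hfe) h1 h2⟩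
  · exfalso
    push Not at h2
    obtain ⟨f, hfe, hm⟩ := other e
    obtain ⟨v, h1, h3⟩ := share e f hm
    have hsub : S ⊆ star v := by
      intro g hg
      rw [h2 g hg, mem_star]
      exact h1
    have := hS.2 (star_stable v) hsub
    have hfS : f ∈ S := this (mem_star.2 h3)
    exact hfe (h2 f hfS)

/-- **The graph is not weakly CIS.** -/
theorem not_wcis : ¬ WeaklyCIS G := by
  rintro ⟨𝒞, 𝒮, hC, hS, hcov, hncov, hx⟩
  have hstar : ∀ v, star v ∈ 𝒮 := by
    intro v
    obtain ⟨e, f, hne, h1, h2⟩ := two_in_star v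
    have hna : ¬ G.Adj e f := by
      rw [adj_iff, meet_of_inc v e f h1 h2]
      decide
    obtain ⟨S, hSm, heS, hfS⟩ := hncov e f hne hna
    rw [← eq_star (hS S hSm) heS hfS hne h1 h2]
    exact hSm
  obtain ⟨C, hCm, -, -⟩ := hcov 0 3 (by rw [adj_iff]; decide)
  have hcl := (hC C hCm).1
  have h1 : ∀ v : Fin 9, (C.filter (fun e => inc v e = true)).card = 1 := by
    intro v
    obtain ⟨x, hxC, hxS⟩ := hx C hCm (star v) (hstar v)
    rw [Finset.card_eq_one]
    refine ⟨x, ?_⟩
    ext y
    simp only [Finset.mem_filter, Finset.mem_singleton]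
    constructor
    · rintro ⟨hyC, hyv⟩
      by_contra hne
      have := hcl y hyC x hxC hne
      rw [adj_iff, meet_of_inc v y x hyv (mem_star.1 hxS)] at this
      exact absurd this (by decide)
    · rintro rfl
      exact ⟨hxC, mem_star.1 hxS⟩
  have h2 : ∑ v : Fin 9, (C.filter (fun e => inc v e = true)).card = ∑ e ∈ C, 2 := by
    simp only [Finset.card_filter]
    rw [Finset.sum_comm]
    apply Finset.sum_congr rfl
    intro e _
    have hd : ∀ e : Fin 14, (∑ x : Fin 9, if inc x e = true then 1 else 0) = 2 := by decide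
    exact hd e
  rw [Finset.sum_congr rfl (fun v _ => h1 v), Finset.sum_const, Finset.sum_const] at h2
  simp at h2
  omega

/-- integer weights, total 304 on each star -/
def wl : List ℕ := [58, 109, 137, 33, 77, 194, 171, 100, 75, 55, 90, 159, 40, 70]

def w (i : Fin 14) : ℕ := wl.getD i 0

/-- all 0/1 vectors with a prescribed weight -/
def solve : List ℕ → ℕ → List (List Bool)
  | [], t => if t = 0 then [[]] else []
  | a :: l, t => (solve l t).map (List.cons false) ++
      (if a ≤ t then (solve l (t - a)).map (List.cons true) else [])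

lemma mem_solve : ∀ (l : List ℕ) (bs : List Bool) (t : ℕ), bs.length = l.length →
    (List.zipWith (fun (a : ℕ) (b : Bool) => if b = true then a else 0) l bs).sum = t →
    bs ∈ solve l t := by
  intro l
  induction l with
  | nil =>
    intro bs t hl hs
    rw [List.length_nil, List.length_eq_zero_iff] at hl
    subst hl
    simp at hs
    simp [solve, ← hs]
  | cons a l ih =>
    intro bs t hl hs
    cases bs with
    | nil => simp at hl
    | cons b bs =>
      simp only [List.length_cons, add_left_inj] at hl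
      simp only [List.zipWith_cons_cons, List.sum_cons] at hs
      cases b with
      | false =>
        simp only [solve, List.mem_append]
        left
        exact List.mem_map_of_mem (ih bs t hl (by simpa using hs))
      | true =>
        simp only [if_true] at hs
        simp only [solve, List.mem_append]
        right
        rw [if_pos (by omega)]
        exact List.mem_map_of_mem (ih bs (t - a) hl (by omega))

set_option maxRecDepth 100000 in
lemma solve_wl : solve wl 304 ⊆
    (List.finRange 9).map (fun v => List.ofFn (fun i : Fin 14 => inc v i)) := by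
  decide +kernel

lemma zip_sum : ∀ (n : ℕ) (f : Fin n → ℕ) (b : Fin n → Bool),
    (List.zipWith (fun (a : ℕ) (b : Bool) => if b = true then a else 0)
      (List.ofFn f) (List.ofFn b)).sum = ∑ i, if b i = true then f i else 0 := by
  intro n
  induction n with
  | zero => intro f b; simp
  | succ n ih =>
    intro f b
    rw [List.ofFn_succ, List.ofFn_succ, List.zipWith_cons_cons, List.sum_cons, ih,
      Fin.sum_univ_succ]

lemma wl_eq : wl = List.ofFn w := by decide

lemma sum_w (S : Finset (Fin 14)) : (List.zipWith (fun (a : ℕ) (b : Bool) => if b = true then a else 0)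
    wl (List.ofFn (fun i : Fin 14 => decide (i ∈ S)))).sum = ∑ i ∈ S, w i := by
  have h : ∑ i ∈ S, w i = ∑ i : Fin 14, if i ∈ S then w i else 0 := by
    rw [Finset.sum_ite_mem, Finset.univ_inter]
  rw [h, wl_eq, zip_sum]
  simp

lemma star_weight : ∀ v : Fin 9, ∑ i ∈ star v, w i = 304 := by
  decide

lemma weight_star {S : Finset (Fin 14)} (h : ∑ i ∈ S, w i = 304) : ∃ v, S = star v := by
  have hm := mem_solve wl (List.ofFn (fun i : Fin 14 => decide (i ∈ S))) 304 (by simp [wl])
    (by rw [sum_w, h])
  have := solve_wl hm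
  rw [List.mem_map] at this
  obtain ⟨v, -, hv⟩ := this
  refine ⟨v, ?_⟩
  have hf := List.ofFn_injective hv
  ext i
  have := congrFun hf i
  rw [mem_star, this]
  simp

/-- **The graph is equistable.** -/
theorem equi : Equistable G := by
  refine ⟨fun i => (w i : ℝ) / 304, fun i => by positivity, ?_⟩
  intro S
  have hsum : ∑ v ∈ S, (w v : ℝ) / 304 = 1 ↔ ∑ i ∈ S, w i = 304 := by
    rw [← Finset.sum_div, div_eq_one_iff_eq (by norm_num)]
    constructor
    · intro h
      exact_mod_cast h
    · intro h
      exact_mod_cast h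
  rw [hsum]
  constructor
  · intro h
    obtain ⟨v, rfl⟩ := max_is_star h
    exact star_weight v
  · intro h
    obtain ⟨v, rfl⟩ := weight_star h
    exact star_max v

/-- **Q1 has a negative answer**: not every finite equistable graph is weakly CIS. -/
theorem result : ∃ (n : ℕ) (G : SimpleGraph (Fin n)), Equistable G ∧ ¬ WeaklyCIS G :=
  ⟨14, G, equi, not_wcis⟩

end Pool.Agent.Results.MP_59918e_co.EquistableNotWeaklyCIS
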